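import Mathlib
import Pool.Agent.Lib.MP_f2f5f5_nt.CaseOdd

set_option autoImplicit false

namespace Pool.Agent.Results.MP_f2f5f5_nt.LucasQuarter

open Pool.Agent.Lib.MP_f2f5f5_nt

/-- The Lucas sequence `U_n(b, -1)`: `U_0 = 0`, `U_1 = 1`, `U_{n+2} = b U_{n+1} + U_n`. -/
def U (b : ℤ) : ℕ → ℤ
  | 0 => 0
  | 1 => 1
  | n + 2 => b * U b (n + 1) + U b n

/-- The Lucas sequence `V_n(b, -1)`: `V_0 = 2`, `V_1 = b`, `V_{n+2} = b V_{n+1} + V_n`. -/
def V (b : ℤ) : ℕ → ℤ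
  | 0 => 2
  | 1 => b
  | n + 2 => b * V b (n + 1) + V b n

/-- `m` is a nonzero integer whose odd part is `≡ 1 (mod 4)`: `m = 2 ^ α * m₀`, `m₀ ≡ 1 (mod 4)`. -/
def OddPartOne (m : ℤ) : Prop := ∃ (α : ℕ) (m₀ : ℤ), m = 2 ^ α * m₀ ∧ m₀ % 4 = 1

theorem not_dvd_of_sq_le {p : ℕ} (hp : p.Prime) {z : ℤ} (hz : z ≠ 0) (h : z ^ 2 ≤ p) :
    ¬ (p : ℤ) ∣ z := by
  rintro ⟨k, hk⟩
  have hk0 : k ≠ 0 := by rintro rfl; exact hz (by rw [hk, mul_zero])
  have h1 : 1 ≤ k ^ 2 := by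
    have : 0 < k ^ 2 := by positivity
    linarith
  have h2 : (2 : ℤ) ≤ p := by exact_mod_cast hp.two_le
  rw [hk] at h
  nlinarith [mul_nonneg (sq_nonneg (p : ℤ)) (sub_nonneg.mpr h1)]

theorem binet {K : Type*} [Field K] (b : ℤ) (u v : K) (h1 : u + v = b) (h2 : u * v = -1) :
    ∀ n : ℕ, ((V b n : ℤ) : K) = u ^ n + v ^ n ∧ (u - v) * ((U b n : ℤ) : K) = u ^ n - v ^ n ∧
      ((V b (n + 1) : ℤ) : K) = u ^ (n + 1) + v ^ (n + 1) ∧
      (u - v) * ((U b (n + 1) : ℤ) : K) = u ^ (n + 1) - v ^ (n + 1) := by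
  intro n
  induction n with
  | zero => simp [U, V, h1]; norm_num
  | succ n ih =>
    obtain ⟨a1, a2, a3, a4⟩ := ih
    refine ⟨a3, a4, ?_, ?_⟩
    · have e : V b (n + 1 + 1) = b * V b (n + 1) + V b n := rfl
      rw [e]; push_cast; rw [a1, a3, ← h1]
      linear_combination (u ^ n + v ^ n) * h2
    · have e : U b (n + 1 + 1) = b * U b (n + 1) + U b n := rfl
      rw [e]; push_cast
      linear_combination (b : K) * a4 + a2 - (u ^ (n + 1) - v ^ (n + 1)) * h1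
        + (u ^ n - v ^ n) * h2

theorem zpow_parity {K : Type*} [Field K] (n : ℤ) :
    (-1 : K) ^ n = if n % 2 = 0 then 1 else -1 := by
  rcases Int.emod_two_eq_zero_or_one n with h | h
  · rw [if_pos h, Even.neg_one_zpow (Int.even_iff.mpr h)]
  · rw [if_neg (by omega), Odd.neg_one_zpow (Int.odd_iff.mpr h)]

/-- The main computation, after normalising `b = 2B`, `d = 4e`, `y = 2w`. -/
theorem main (p : ℕ) [hpf : Fact p.Prime] (B c e x w : ℤ) (hp8 : p % 8 = 1) (hB : B % 2 = 1)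
    (hpc : (p : ℤ) = c ^ 2 + 16 * e ^ 2) (hpx : (p : ℤ) = x ^ 2 + (1 + B ^ 2) * (4 * w ^ 2))
    (hc : c % 4 = 1) (hx : x % 4 = 1) (hw : w ≠ 0) :
    (w % 4 = 1 → ((U (2 * B) ((p - 1) / 4) : ℤ) : ZMod p)
        = (if ((B - 1) / 2 + e) % 2 = 0 then 1 else -1) * ((2 * w : ZMod p) / x) ∧
      ((V (2 * B) ((p - 1) / 4) : ℤ) : ZMod p) = 0) ∧
    (w % 2 = 0 → ((U (2 * B) ((p - 1) / 4) : ℤ) : ZMod p) = 0 ∧
      ((V (2 * B) ((p - 1) / 4) : ℤ) : ZMod p) = 2 * (if (e + w / 2) % 2 = 0 then 1 else -1)) := by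
  have hp := hpf.out
  have h20 : (2 : ZMod p) ≠ 0 := two_ne_zero' p (by omega)
  have hcp : ¬ (p : ℤ) ∣ c := not_dvd_of_sq_le hp (by omega) (by rw [hpc]; nlinarith [sq_nonneg e])
  have hxp : ¬ (p : ℤ) ∣ x :=
    not_dvd_of_sq_le hp (by omega) (by rw [hpx]; nlinarith [sq_nonneg w, sq_nonneg (B * w)])
  have hwp : ¬ (p : ℤ) ∣ w :=
    not_dvd_of_sq_le hp hw (by rw [hpx]; nlinarith [sq_nonneg w, sq_nonneg (B * w), sq_nonneg x])
  have cast_ne : ∀ z : ℤ, ¬ (p : ℤ) ∣ z → (z : ZMod p) ≠ 0 := by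
    intro z hz h
    rw [ZMod.intCast_zmod_eq_zero_iff_dvd] at h
    exact hz h
  have hc0 := cast_ne c hcp
  have hx0 := cast_ne x hxp
  have hw0 := cast_ne w hwp
  have hnorm : (⟨c, 4 * e⟩ : GaussianInt) * star ⟨c, 4 * e⟩ = (p : GaussianInt) := by
    rw [← Zsqrtd.norm_eq_mul_conj, Zsqrtd.norm_def]
    have : c * c - -1 * (4 * e) * (4 * e) = (p : ℤ) := by rw [hpc]; ring
    simp only [this]
    norm_cast
  obtain ⟨φ, hφ, hker⟩ := exists_phi p ⟨c, 4 * e⟩ hnorm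
  obtain ⟨χ, hχ⟩ := exists_chi p (by omega) φ
  -- the arithmetic data
  obtain ⟨g, hg⟩ : ∃ g, c + x = 2 * g := ⟨(c + x) / 2, by omega⟩
  have hg2 : g % 2 = 1 := by omega
  obtain ⟨h, hh⟩ : ∃ h, h = 2 * e - B * w := ⟨_, rfl⟩
  have hg0 : g ≠ 0 := by omega
  have hgcd : 0 < Int.gcd g h := Int.gcd_pos_of_ne_zero_left h hg0
  obtain ⟨t, ht⟩ : ∃ t : ℤ, t = Int.gcd g h := ⟨_, rfl⟩
  have ht0 : 0 < t := by rw [ht]; exact_mod_cast hgcd
  obtain ⟨a, ha⟩ : t ∣ g := by rw [ht]; exact Int.gcd_dvd_left _ _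
  obtain ⟨b, hb⟩ : t ∣ h := by rw [ht]; exact Int.gcd_dvd_right _ _
  have hcop : IsCoprime a b := by
    have h1 := Int.gcd_eq_gcd_ab g h
    rw [← ht] at h1
    refine ⟨Int.gcdA g h, Int.gcdB g h, ?_⟩
    apply mul_left_cancel₀ ht0.ne'
    rw [mul_one]
    conv_rhs => rw [h1]
    conv_rhs => rw [ha, hb]
    rw [← ha, ← hb]
    linear_combination (-Int.gcdA g h) * ha - Int.gcdB g h * hb
  obtain ⟨m, hm⟩ : ∃ m, m = a * c + 4 * b * e := ⟨_, rfl⟩
  obtain ⟨s, hs⟩ : ∃ s, s = m - t * (a ^ 2 + b ^ 2) := ⟨_, rfl⟩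
  have hgc : g * (c - g) = (1 + B ^ 2) * w ^ 2 - 4 * e ^ 2 := by
    have hx' : x = 2 * g - c := by linarith
    rw [hx'] at hpx
    have : 4 * (g * (c - g)) = 4 * ((1 + B ^ 2) * w ^ 2 - 4 * e ^ 2) := by
      linear_combination hpx - hpc
    linarith
  have hws : w ^ 2 = t * s := by
    rw [hs, hm]
    rw [ha] at hgc
    have e1 : t * b = 2 * e - B * w := by rw [← hb, hh]
    linear_combination -hgc + (t * b - 2 * e - B * w) * e1
  -- the element `ε`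
  have hIφ2 : φ gi ^ 2 = -1 := map_gi_sq φ
  have hphi := phi_eq φ hφ
  set I := φ gi with hI
  have hI0 : I ≠ 0 := by
    intro h0
    rw [h0] at hIφ2
    have : (1 : ZMod p) = 0 := by linear_combination hIφ2
    exact one_ne_zero this
  have hd : 4 * (e : ZMod p) = c * I := by linear_combination -I * hphi + 4 * (e : ZMod p) * hIφ2
  obtain ⟨ρ, hρ⟩ : ∃ ρ : ZMod p, ρ = I * x / (2 * w) := ⟨_, rfl⟩
  have h2w0 : (2 * w : ZMod p) ≠ 0 := mul_ne_zero h20 hw0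
  have hρw : ρ * (2 * w) = I * x := by rw [hρ]; field_simp
  have hρ0 : ρ ≠ 0 := by
    rw [hρ]; exact div_ne_zero (mul_ne_zero hI0 hx0) h2w0
  have hpz : (x : ZMod p) ^ 2 + (1 + (B : ZMod p) ^ 2) * (4 * (w : ZMod p) ^ 2) = 0 := by
    have h1 : (((x ^ 2 + (1 + B ^ 2) * (4 * w ^ 2) : ℤ)) : ZMod p) = 0 := by
      rw [← hpx]; simp
    push_cast at h1
    exact h1
  have hρ2 : ρ ^ 2 = 1 + (B : ZMod p) ^ 2 := by
    have h1 : (ρ ^ 2 - (1 + (B : ZMod p) ^ 2)) * (2 * w) ^ 2 = 0 := by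
      linear_combination (ρ * (2 * w) + I * x) * hρw + (x : ZMod p) ^ 2 * hIφ2 - hpz
    rcases mul_eq_zero.mp h1 with h2 | h2
    · linear_combination h2
    · exact absurd (pow_eq_zero_iff two_ne_zero |>.mp h2) h2w0
  have huv : ((B : ZMod p) + ρ) * (B - ρ) = -1 := by linear_combination -hρ2
  have hsum : ((B : ZMod p) + ρ) + (B - ρ) = ((2 * B : ℤ) : ZMod p) := by push_cast; ring
  have hε : (c : ZMod p) * w * (B + ρ) = I * (t * m) := by
    have e1 : (t : ZMod p) * m = g * c + 4 * h * e := by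
      have : t * m = g * c + 4 * h * e := by rw [ha, hb, hm]; ring
      exact_mod_cast congrArg (Int.cast : ℤ → ZMod p) this
    have e2 : (h : ZMod p) = 2 * e - B * w := by rw [hh]; push_cast; ring
    have e3 : (c : ZMod p) + x = 2 * g := by exact_mod_cast congrArg (Int.cast : ℤ → ZMod p) hg
    apply mul_left_cancel₀ h20
    rw [e1]
    linear_combination (c : ZMod p) * hρw - 8 * I * e * e2 + (c : ZMod p) * I * e3
      + (2 * w * B * I - I * (4 * e + c * I)) * hd + (2 * w * B * c - (c : ZMod p) ^ 2 * I) * hIφ2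
  have hu0 : (B : ZMod p) + ρ ≠ 0 := by
    intro h0
    rw [h0, zero_mul] at huv
    exact one_ne_zero (by linear_combination huv : (1 : ZMod p) = 0)
  have hmp : ¬ (p : ℤ) ∣ m := by
    intro h0
    have h1 : (m : ZMod p) = 0 := (ZMod.intCast_zmod_eq_zero_iff_dvd m p).mpr h0
    rw [h1, mul_zero, mul_zero] at hε
    exact (mul_ne_zero (mul_ne_zero hc0 hw0) hu0) hε
  have D : Data p c e g h w B t a b m s :=
    { hp := hp, p8 := hp8, pc := hpc, c4 := hc, B2 := hB, gc := hgc, hh := hh, g2 := hg2,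
      t0 := ht0, ga := ha, hb := hb, cop := hcop, hm := hm, hs := by rw [hs]; ring, ws := hws,
      pw := hwp, pm := hmp }
  have hK : Even ((p - 1) / 4) := by rw [Nat.even_iff]; omega
  have huvK : ((B : ZMod p) + ρ) ^ ((p - 1) / 4) * (B - ρ) ^ ((p - 1) / 4) = 1 := by
    rw [← mul_pow, huv, hK.neg_one_pow]
  obtain ⟨bV, bU, -, -⟩ := binet (2 * B) _ _ hsum huv ((p - 1) / 4)
  have hdiff : ((B : ZMod p) + ρ) - (B - ρ) = 2 * ρ := by ring
  rw [hdiff] at bU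
  have h2ρ : 2 * ρ ≠ 0 := mul_ne_zero h20 hρ0
  constructor
  · intro hw4
    have hodd := D.case_odd φ hker χ hχ hw4 _ hε
    rw [← hI] at hodd
    set δ : ZMod p := if ((B - 1) / 2 + e) % 2 = 0 then 1 else -1 with hδ
    have hδ2 : δ ^ 2 = 1 := by rw [hδ]; split_ifs <;> norm_num
    have hδI : δ * I ≠ 0 := by
      apply mul_ne_zero _ hI0
      intro h0
      rw [h0] at hδ2
      exact one_ne_zero (by linear_combination -hδ2 : (1 : ZMod p) = 0)
    have hv : ((B : ZMod p) - ρ) ^ ((p - 1) / 4) = -(δ * I) := by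
      apply mul_left_cancel₀ hδI
      rw [hodd] at huvK
      linear_combination huvK + I ^ 2 * hδ2 + hIφ2
    rw [hodd, hv] at bU bV
    refine ⟨?_, by rw [bV]; ring⟩
    rw [eq_comm, mul_div_assoc', div_eq_iff hx0]
    apply mul_left_cancel₀ (mul_ne_zero h20 hI0)
    linear_combination (-2 * w : ZMod p) * bU + 2 * ((U (2 * B) ((p - 1) / 4) : ℤ) : ZMod p) * hρw
  · intro hw2
    have heven := D.case_even φ hφ hker χ hχ hw2 _ hε
    set δ : ZMod p := if (e + w / 2) % 2 = 0 then 1 else -1 with hδ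
    have hδ2 : δ ^ 2 = 1 := by rw [hδ]; split_ifs <;> norm_num
    have hδ0 : δ ≠ 0 := by
      intro h0
      rw [h0] at hδ2
      exact one_ne_zero (by linear_combination -hδ2 : (1 : ZMod p) = 0)
    have hv : ((B : ZMod p) - ρ) ^ ((p - 1) / 4) = δ := by
      apply mul_left_cancel₀ hδ0
      rw [heven] at huvK
      linear_combination huvK - hδ2
    rw [heven, hv] at bU bV
    rw [sub_self] at bU
    refine ⟨(mul_eq_zero.mp bU).resolve_left h2ρ, by rw [bV]; ring⟩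

/-- **Answer to Q1** (the congruences hold). Besides the four congruences the statement records that
`4 ∣ d` and `2 ∣ y`, so that the integer quotients in the exponents are exact and the two cases
`2 ∥ y` and `4 ∣ y` are exhaustive. -/
theorem result (p : ℕ) [Fact p.Prime] (b c d x y : ℤ) (hp4 : p % 4 = 1) (hb : b % 4 = 2)
    (_hpb : (p : ℤ) ≠ b ^ 2 / 4 + 1) (hcd : (p : ℤ) = c ^ 2 + d ^ 2)
    (hxy : (p : ℤ) = x ^ 2 + (1 + b ^ 2 / 4) * y ^ 2) (hc : c % 4 = 1)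
    (hx : OddPartOne x) (hy : OddPartOne y) :
    4 ∣ d ∧ 2 ∣ y ∧
    (y % 4 = 2 →
      ((U b ((p - 1) / 4) : ℤ) : ZMod p)
        = (-1 : ZMod p) ^ ((b - 2) / 4 + d / 4) * ((y : ZMod p) / (x : ZMod p)) ∧
      ((V b ((p - 1) / 4) : ℤ) : ZMod p) = 0) ∧
    (4 ∣ y →
      ((U b ((p - 1) / 4) : ℤ) : ZMod p) = 0 ∧
      ((V b ((p - 1) / 4) : ℤ) : ZMod p) = 2 * (-1 : ZMod p) ^ (d / 4 + y / 4)) := by
  obtain ⟨B, rfl⟩ : ∃ B, b = 2 * B := ⟨b / 2, by omega⟩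
  have hB : B % 2 = 1 := by omega
  have hB4 : (2 * B) ^ 2 / 4 = B ^ 2 := by
    have : (2 * B) ^ 2 = 4 * B ^ 2 := by ring
    rw [this]; omega
  rw [hB4] at hxy
  obtain ⟨r, hr⟩ : ∃ r, B ^ 2 = 8 * r + 1 := ⟨B ^ 2 / 8, by have := sq_mod_eight hB; omega⟩
  have hx2 : x % 2 = 1 := by
    rcases Int.emod_two_eq_zero_or_one x with h | h
    · exfalso
      obtain ⟨z, rfl⟩ : ∃ z, x = 2 * z := ⟨x / 2, by omega⟩
      have : (p : ℤ) = 2 * (2 * z ^ 2 + (4 * r + 1) * y ^ 2) := by rw [hxy, hr]; ring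
      omega
    · exact h
  have hx4 : x % 4 = 1 := by
    obtain ⟨α, x0, h1, h2⟩ := hx
    rcases α with _ | α
    · rw [h1]; omega
    · exfalso
      have : (2 : ℤ) ^ (α + 1) * x0 = 2 * (2 ^ α * x0) := by ring
      omega
  have hx8 := sq_mod_eight hx2
  have hp8' : (p : ℤ) = x ^ 2 + 8 * (r * y ^ 2) + 2 * y ^ 2 := by rw [hxy, hr]; ring
  have hy2 : y % 2 = 0 := by
    rcases Int.emod_two_eq_zero_or_one y with h | h
    · exact h
    · exfalso
      have := sq_mod_eight h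
      omega
  obtain ⟨w, rfl⟩ : ∃ w, y = 2 * w := ⟨y / 2, by omega⟩
  have hp8 : p % 8 = 1 := by
    have : (p : ℤ) = x ^ 2 + 8 * (r * (2 * w) ^ 2) + 8 * w ^ 2 := by rw [hp8']; ring
    omega
  have hc8 := sq_mod_eight (n := c) (by omega)
  have hd4 : 4 ∣ d := by
    have h1 : d ^ 2 % 8 = 0 := by omega
    have h2 : d % 2 = 0 := by
      rcases Int.emod_two_eq_zero_or_one d with h | h
      · exact h
      · have := sq_mod_eight h; omega
    obtain ⟨z, rfl⟩ : ∃ z, d = 2 * z := ⟨d / 2, by omega⟩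
    have h3 : z % 2 = 0 := by
      rcases Int.emod_two_eq_zero_or_one z with h | h
      · exact h
      · exfalso
        have h4 := sq_mod_eight h
        have h5 : (2 * z) ^ 2 = 4 * z ^ 2 := by ring
        omega
    omega
  obtain ⟨e, rfl⟩ := hd4
  have hw0 : w ≠ 0 := by
    rintro rfl
    obtain ⟨α, y0, h1, h2⟩ := hy
    rw [mul_zero] at h1
    rcases mul_eq_zero.mp h1.symm with h3 | h3
    · exact absurd h3 (by positivity)
    · omega
  have hmain := main p B c e x w hp8 hB (by rw [hcd]; ring) (by rw [hxy]; ring) hc hx4 hw0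
  refine ⟨⟨e, rfl⟩, ⟨w, rfl⟩, fun hy4 => ?_, fun hy4 => ?_⟩
  · have hw4 : w % 4 = 1 := by
      obtain ⟨α, y0, h1, h2⟩ := hy
      rcases α with _ | _ | α
      · exfalso; rw [pow_zero, one_mul] at h1; omega
      · rw [zero_add, pow_one] at h1; omega
      · exfalso
        have : (2 : ℤ) ^ (α + 1 + 1) * y0 = 4 * (2 ^ α * y0) := by ring
        omega
    obtain ⟨m1, m2⟩ := hmain.1 hw4
    refine ⟨?_, m2⟩
    have e1 : (2 * B - 2) / 4 + 4 * e / 4 = (B - 1) / 2 + e := by omega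
    rw [m1, zpow_parity, e1]
    push_cast
    rfl
  · obtain ⟨m1, m2⟩ := hmain.2 (by omega)
    refine ⟨m1, ?_⟩
    have e1 : 4 * e / 4 + 2 * w / 4 = e + w / 2 := by omega
    rw [m2, zpow_parity, e1]

end Pool.Agent.Results.MP_f2f5f5_nt.LucasQuarter
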